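import Pool.Agent.MP_caba0b_al.H43.Iface

/-! Unitary representations of a compact group with the same character are conjugate. -/

namespace Pool.Agent.MP_caba0b_al.H6

open Pool.Agent.MP_caba0b_al.H43 MeasureTheory Matrix
open scoped ComplexOrder

variable {d : ℕ}

abbrev M (d : ℕ) := Matrix (Fin d) (Fin d) ℂ

section avg

variable {G : Type} [TopologicalSpace G] [CompactSpace G] [MeasurableSpace G] [BorelSpace G]
  (μ : Measure G) [IsFiniteMeasure μ]

/-- entrywise integral -/
noncomputable def mint (f : G → M d) : M d := Matrix.of fun i j => ∫ g, f g i j ∂μ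

theorem cint {f : G → ℂ} (hf : Continuous f) : Integrable f μ :=
  hf.integrable_of_hasCompactSupport (HasCompactSupport.of_compactSpace f)

theorem mul_mint (A : M d) {f : G → M d} (hf : Continuous f) :
    A * mint μ f = mint μ fun g => A * f g := by
  ext i j
  simp only [mint, Matrix.mul_apply, Matrix.of_apply]
  rw [integral_finsetSum _ fun k _ => (cint μ (hf.matrix_elem k j)).const_mul _]
  simp only [integral_const_mul]

theorem mint_mul (A : M d) {f : G → M d} (hf : Continuous f) :
    mint μ f * A = mint μ fun g => f g * A := by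
  ext i j
  simp only [mint, Matrix.mul_apply, Matrix.of_apply]
  rw [integral_finsetSum _ fun k _ => (cint μ (hf.matrix_elem i k)).mul_const _]
  simp only [integral_mul_const]

end avg

section rep

variable {G : Type} [Group G]

theorem val_inv (W : G →* U d) (g : G) : ((W g⁻¹ : U d) : M d) = star (W g : M d) := by
  rw [map_inv]
  rfl

theorem star_inter {V W : G →* U d} {X : M d} (h : ∀ g, (V g : M d) * X = X * W g) (g : G) :
    star X * (V g : M d) = W g * star X := by
  have := congrArg star (h g⁻¹)
  rwa [star_mul, star_mul, val_inv, val_inv, star_star, star_star] at this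

theorem exists_inter [TopologicalSpace G] [IsTopologicalGroup G] [CompactSpace G] [T2Space G]
    {V W : G →* U d} (hV : Continuous V) (hW : Continuous W) {p q : M d}
    (hp : star p * p = p) (hp0 : p ≠ 0)
    (ht : ∀ g, ((V g : M d) * q).trace = ((W g : M d) * p).trace) :
    ∃ Y : M d, Y ≠ 0 ∧ (∀ g, (V g : M d) * Y = Y * W g) ∧
      (∀ A : M d, (∀ g, A * (V g * q) = 0) → A * Y = 0) ∧
      ∀ A : M d, (∀ g, p * star (W g : M d) * A = 0) → Y * A = 0 := by
  borelize G
  let μ : Measure G := Measure.haarMeasure ⊤
  have hVc : Continuous fun g => (V g : M d) := continuous_subtype_val.comp hV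
  have hWc : Continuous fun g => (W g : M d) := continuous_subtype_val.comp hW
  have hps : star p = p := by rw [← hp, star_mul, star_star]
  let f : M d → G → M d := fun E g => (V g * q) * E * (p * star (W g : M d))
  have hf : ∀ E, Continuous (f E) := fun E => by
    simp only [f]
    fun_prop
  have key : ∃ E, mint μ (f E) ≠ 0 := by
    by_contra hcon
    push Not at hcon
    have h1 : ∀ i j, ∫ g, ((V g : M d) * q) i i * (p * star (W g : M d)) j j ∂μ = 0 := by
      intro i j
      have := congrFun (congrFun (hcon (Matrix.single i j 1)) i) j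
      simp only [mint, Matrix.of_apply, Matrix.zero_apply, f] at this
      rw [← this]
      congr 1
      funext g
      rw [Matrix.mul_apply (M := _ * Matrix.single i j 1), Finset.sum_eq_single j]
      · rw [Matrix.mul_single_apply_same, mul_one]
      · intro k _ hk
        rw [Matrix.mul_single_apply_of_ne _ _ _ _ _ hk, zero_mul]
      · simp
    have hc : ∀ i j, Continuous fun g =>
        ((V g : M d) * q) i i * (p * star (W g : M d)) j j := fun i j =>
      ((hVc.mul continuous_const).matrix_elem i i).mul
        ((continuous_const.mul hWc.star).matrix_elem j j)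
    have h2 : ∫ g, ((‖((W g : M d) * p).trace‖ ^ 2 : ℝ) : ℂ) ∂μ = 0 := by
      have e : ∀ g, ((‖((W g : M d) * p).trace‖ ^ 2 : ℝ) : ℂ) =
          ∑ i, ∑ j, ((V g : M d) * q) i i * (p * star (W g : M d)) j j := by
        intro g
        rw [← Finset.sum_mul_sum]
        change _ = ((V g : M d) * q).trace * (p * star (W g : M d)).trace
        have : p * star (W g : M d) = star ((W g : M d) * p) := by rw [star_mul, hps]
        rw [ht, this, Matrix.star_eq_conjTranspose, Matrix.trace_conjTranspose]
        rw [Complex.star_def, Complex.mul_conj']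
        push_cast
        rfl
      simp only [e]
      rw [integral_finsetSum _ fun i _ => integrable_finsetSum _ fun j _ => cint μ (hc i j)]
      refine Finset.sum_eq_zero fun i _ => ?_
      rw [integral_finsetSum _ fun j _ => cint μ (hc i j)]
      exact Finset.sum_eq_zero fun j _ => h1 i j
    rw [integral_complex_ofReal, Complex.ofReal_eq_zero] at h2
    have hχ : Continuous fun g => ‖((W g : M d) * p).trace‖ ^ 2 :=
      ((hWc.mul continuous_const).matrix_trace.norm).pow 2
    have h3 := hχ.integral_pos_of_hasCompactSupport_nonneg_nonzero (μ := μ) (x := 1)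
      (HasCompactSupport.of_compactSpace _) (fun g => by positivity) (by
        simp only [map_one, OneMemClass.coe_one, one_mul, ne_eq, OfNat.ofNat_ne_zero,
          not_false_eq_true, pow_eq_zero_iff, norm_eq_zero]
        rw [← hp, Matrix.star_eq_conjTranspose, Matrix.trace_conjTranspose_mul_self_eq_zero_iff]
        exact hp0)
    exact h3.ne' h2
  obtain ⟨E, hE⟩ := key
  refine ⟨mint μ (f E), hE, fun h => ?_, fun A hA => ?_, fun A hA => ?_⟩
  · rw [mul_mint μ _ (hf E), mint_mul μ _ (hf E)]
    ext i j
    simp only [mint, Matrix.of_apply]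
    rw [← integral_mul_left_eq_self (fun g => (f E g * (W h : M d)) i j) h]
    congr 1
    funext g
    have e : star (W h : M d) * (W h : M d) = 1 := (W h).2.1
    simp only [f, map_mul, Submonoid.coe_mul, star_mul, mul_assoc, e, mul_one]
  · rw [mul_mint μ _ (hf E)]
    ext i j
    have : ∀ g, A * f E g = 0 := fun g => by
      simp only [f]
      rw [← mul_assoc A, ← mul_assoc A, hA, zero_mul, zero_mul]
    simp only [mint, Matrix.of_apply, this, Matrix.zero_apply, integral_zero]
  · rw [mint_mul μ _ (hf E)]
    ext i j
    simp only [mint, Matrix.of_apply, f, mul_assoc _ (p * _) A, hA, mul_zero, Matrix.zero_apply,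
      integral_zero]

theorem exists_polar {Y : M d} (hY : Y ≠ 0) : ∃ r : M d, Y * r ≠ 0 ∧
    Y * r * star (Y * r) * (Y * r) = Y * r ∧
    ∀ A : M d, Commute (star Y * Y) A → Commute r A := by
  have hH : IsSelfAdjoint (star Y * Y) := IsSelfAdjoint.star_mul_self Y
  have hP : (star Y * Y).PosSemidef := Matrix.posSemidef_conjTranspose_mul_self Y
  have hc : ∀ f : ℝ → ℝ, ContinuousOn f (spectrum ℝ (star Y * Y)) := fun f =>
    Matrix.finite_real_spectrum.continuousOn f
  set H := star Y * Y with hHd
  let f : ℝ → ℝ := fun t => (√t)⁻¹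
  have hr : star (cfc f H) = cfc f H := (cfc_predicate f H).star_eq
  have hid : cfc (fun t : ℝ => t) H = H := cfc_id' ℝ H hH
  have e1 : cfc f H * cfc f H * H * cfc f H = cfc f H := by
    conv_lhs => enter [1, 2]; rw [← hid]
    rw [← cfc_mul _ _ H (hc _) (hc _), ← cfc_mul _ _ H (hc _) (hc _),
      ← cfc_mul _ _ H (hc _) (hc _)]
    congr 1
    funext t
    rcases le_or_gt t 0 with h | h
    · simp [f, Real.sqrt_eq_zero_of_nonpos h]
    · have h1 := Real.sqrt_pos.2 h
      have h2 := Real.mul_self_sqrt h.le
      simp only [f]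
      field_simp
      nlinarith
  have e2 : H * (cfc f H * H * cfc f H) = H := by
    conv_lhs =>
      congr
      · rw [← hid]
      · enter [1, 2]; rw [← hid]
    rw [← cfc_mul _ _ H (hc _) (hc _), ← cfc_mul _ _ H (hc _) (hc _),
      ← cfc_mul _ _ H (hc _) (hc _)]
    conv_rhs => rw [← hid]
    refine cfc_congr fun t ht => ?_
    rw [hP.1.spectrum_real_eq_range_eigenvalues] at ht
    obtain ⟨i, rfl⟩ := ht
    rcases (hP.eigenvalues_nonneg i).eq_or_lt with h | h
    · simp [← h]
    · have h1 := Real.sqrt_pos.2 h
      have h2 := Real.mul_self_sqrt h.le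
      simp only [f]
      field_simp
      nlinarith
  refine ⟨cfc f H, fun h0 => hY ?_, ?_, fun A hA => hA.cfc_real f⟩
  · have e3 : cfc f H * H * cfc f H = 0 := by
      rw [hHd, mul_assoc, mul_assoc, ← hHd, h0, mul_zero, mul_zero]
    rw [e3, mul_zero] at e2
    exact Matrix.conjTranspose_mul_self_eq_zero.1 e2.symm
  · rw [star_mul, hr]
    calc Y * cfc f H * (cfc f H * star Y) * (Y * cfc f H)
        = Y * (cfc f H * cfc f H * (star Y * Y) * cfc f H) := by simp only [mul_assoc]
      _ = _ := by rw [← hHd, e1]

theorem equiv : EquivStmt := by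
  intro G _ _ _ _ _ d V W hV hW ht
  obtain ⟨u, ⟨hu, huu⟩, hmin⟩ := exists_minimalFor_of_wellFoundedLT
    (fun u : M d => (∀ g, (V g : M d) * u = u * W g) ∧ u * star u * u = u)
    (fun u => Module.finrank ℂ (LinearMap.ker (Matrix.mulVecLin u))) ⟨0, by simp, by simp⟩
  have hus : star u * u * star u = star u := by
    have := congrArg star huu
    rwa [star_mul, star_mul, star_star, ← mul_assoc] at this
  have hone : star u * u = 1 := by
    by_contra hne
    have hpp : star u * u * (star u * u) = star u * u := by rw [← mul_assoc, hus]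
    obtain ⟨Y, hY, hYi, hY1, hY2⟩ := exists_inter hV hW (p := 1 - star u * u)
      (q := 1 - u * star u) (by
        rw [star_sub, star_one, star_mul, star_star, sub_mul, mul_sub, mul_sub, hpp]
        simp) (fun h => hne (sub_eq_zero.1 h).symm) (fun g => by
        rw [mul_sub, mul_sub, mul_one, mul_one, Matrix.trace_sub, Matrix.trace_sub,
          ← mul_assoc, hu, Matrix.trace_mul_comm _ (star u), ← mul_assoc,
          Matrix.trace_mul_comm _ (W g : M d)]
        exact congrArg (· - _) (ht g))
    have a1 : star u * Y = 0 := hY1 _ fun g => by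
      rw [← mul_assoc, star_inter hu, mul_assoc, mul_sub, mul_one, ← mul_assoc, hus, sub_self,
        mul_zero]
    have a2 : Y * star u = 0 := hY2 _ fun g => by
      rw [← val_inv, mul_assoc, ← star_inter hu, ← mul_assoc, sub_mul, one_mul, hus, sub_self,
        zero_mul]
    have a2' : u * star Y = 0 := by
      have := congrArg star a2
      rwa [star_mul, star_star, star_zero] at this
    obtain ⟨r, hr0, hr1, hr2⟩ := exists_polar hY
    have hrW : ∀ g, Commute r (W g : M d) := fun g => hr2 _ (by
      rw [Commute, SemiconjBy, mul_assoc, ← hYi, ← mul_assoc, star_inter hYi, mul_assoc])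
    have hrp : Commute r (star u * u) := hr2 _ (by
      rw [Commute, SemiconjBy, mul_assoc, ← mul_assoc Y, a2, mul_assoc, ← mul_assoc u, a2']
      simp)
    have b1 : star u * (Y * r) = 0 := by rw [← mul_assoc, a1, zero_mul]
    have b3 : Y * r * (star u * u) = 0 := by
      rw [mul_assoc, hrp.eq, ← mul_assoc, ← mul_assoc, a2, zero_mul, zero_mul]
    have b2 : Y * r * star u = 0 := by rw [← hus, ← mul_assoc, b3, zero_mul]
    have hv : ∀ g, (V g : M d) * (Y * r) = Y * r * W g := fun g => by
      rw [← mul_assoc, hYi, mul_assoc, ← (hrW g).eq, mul_assoc]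
    generalize Y * r = v at hr0 hr1 b1 b2 b3 hv
    have b1' : star v * u = 0 := by
      have := congrArg star b1
      rwa [star_mul, star_star, star_zero] at this
    have b2' : u * star v = 0 := by
      have := congrArg star b2
      rwa [star_mul, star_star, star_zero] at this
    have hnew : (u + v) * star (u + v) * (u + v) = u + v := by
      have c1 : (u + v) * star (u + v) = u * star u + v * star v := by
        rw [star_add, add_mul, mul_add, mul_add, b2, b2', add_zero, zero_add]
      rw [c1, add_mul, mul_add, mul_add, huu, hr1, mul_assoc u, b1, mul_assoc v, b1']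
      simp
    have hlt : LinearMap.ker (Matrix.mulVecLin (u + v)) < LinearMap.ker (Matrix.mulVecLin u) := by
      refine lt_of_le_of_ne (fun x hx => ?_) fun heq => hr0 ?_
      · rw [LinearMap.mem_ker, Matrix.mulVecLin_apply] at hx ⊢
        have : u * star u * (u + v) = u := by rw [mul_add, huu, mul_assoc, b1]; simp
        rw [← this, ← Matrix.mulVec_mulVec, hx, Matrix.mulVec_zero]
      · refine Matrix.ext_iff_mulVec.2 fun x => ?_
        have h1 : (1 - star u * u) *ᵥ x ∈ LinearMap.ker (Matrix.mulVecLin u) := by
          rw [LinearMap.mem_ker, Matrix.mulVecLin_apply, Matrix.mulVec_mulVec, mul_sub, mul_one,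
            ← mul_assoc, huu, sub_self, Matrix.zero_mulVec]
        rw [← heq, LinearMap.mem_ker, Matrix.mulVecLin_apply, Matrix.mulVec_mulVec, add_mul,
          mul_sub, mul_sub, mul_one, mul_one, ← mul_assoc, huu, b3] at h1
        simpa using h1
    have h1 := Submodule.finrank_lt_finrank_of_lt hlt
    have h2 := hmin (j := u + v) ⟨fun g => by rw [mul_add, add_mul, hu, hv], hnew⟩ h1.le
    exact absurd h2 (not_le.2 h1)
  refine ⟨⟨u, Matrix.mem_unitaryGroup_iff'.2 hone⟩, fun g => ?_⟩
  rw [eq_mul_inv_iff_mul_eq]
  exact Subtype.ext (hu g)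

end rep

end Pool.Agent.MP_caba0b_al.H6
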